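import Mathlib

/-!
# The censored walk on a monotone subset of the hypercube need not mix in `O(n log n)` steps

The monotone set is the union of two subcubes `{x : x = 1 on S}` and `{x : x = 1 on T}` with
`S`, `T` disjoint of size `k`.
-/

namespace Pool.Agent.Results.MP_52661b_pr.TwoSubcubes

open Finset

/-- The point `x^{(i)}`: flip coordinate `i`. -/
def flip {n : ℕ} (x : Fin n → Bool) (i : Fin n) : Fin n → Bool :=
  Function.update x i (!x i)

/-- The censored move: flip coordinate `i` if the result lies in `A`, otherwise stay. -/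
def move {n : ℕ} (A : Finset (Fin n → Bool)) (x : A) (i : Fin n) : A :=
  if h : flip x.1 i ∈ A then ⟨flip x.1 i, h⟩ else x

/-- Transition matrix of the lazy censored walk on `A`: with probability `1/2` stay put, otherwise
choose a uniformly random coordinate and make the censored move. -/
noncomputable def censored {n : ℕ} (A : Finset (Fin n → Bool)) : Matrix A A ℝ :=
  fun x y => (if x = y then 1 else 0) / 2 +
    (∑ i : Fin n, if move A x i = y then (1 : ℝ) else 0) / (2 * n)

/-- Total variation distance between the law at time `t` started at `x` and the uniform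
distribution on `A`. -/
noncomputable def tv {n : ℕ} (A : Finset (Fin n → Bool)) (t : ℕ) (x : A) : ℝ :=
  (∑ y : A, |(censored A ^ t) x y - 1 / (A.card : ℝ)|) / 2

/-- `t` is a time at which the chain is mixed (distance at most `1/4` from every start). The
mixing time `t_mix(A)` is the least such `t`. -/
def Mixed {n : ℕ} (A : Finset (Fin n → Bool)) (t : ℕ) : Prop :=
  ∀ x : A, tv A t x ≤ 1 / 4

/-! ### Basic facts on the walk -/

lemma flip_flip {n : ℕ} (x : Fin n → Bool) (i : Fin n) : flip (flip x i) i = x := by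
  funext j
  by_cases h : j = i
  · subst h; simp [flip]
  · simp [flip, h]

lemma move_symm {n : ℕ} (A : Finset (Fin n → Bool)) {x y : A} {i : Fin n} (hxy : x ≠ y)
    (h : move A x i = y) : move A y i = x := by
  unfold move at h
  split_ifs at h with h1
  · have hy : y.1 = flip x.1 i := by rw [← h]
    have hx : flip y.1 i = x.1 := by rw [hy, flip_flip]
    unfold move
    have : flip y.1 i ∈ A := by rw [hx]; exact x.2
    rw [dif_pos this]
    exact Subtype.ext hx
  · exact absurd h hxy

lemma censored_symm {n : ℕ} (A : Finset (Fin n → Bool)) (x y : A) :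
    censored A x y = censored A y x := by
  by_cases hxy : x = y
  · subst hxy; rfl
  · unfold censored
    have e1 : (if x = y then (1 : ℝ) else 0) = (if y = x then (1 : ℝ) else 0) := by
      rw [if_neg hxy, if_neg (Ne.symm hxy)]
    have e2 : (∑ i : Fin n, if move A x i = y then (1 : ℝ) else 0) =
        ∑ i : Fin n, if move A y i = x then (1 : ℝ) else 0 := by
      refine Finset.sum_congr rfl (fun i _ => ?_)
      by_cases h : move A x i = y
      · rw [if_pos h, if_pos (move_symm A hxy h)]
      · have h' : ¬ move A y i = x := fun h' => h (move_symm A (Ne.symm hxy) h')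
        rw [if_neg h, if_neg h']
    rw [e1, e2]

lemma censored_nonneg {n : ℕ} (A : Finset (Fin n → Bool)) (x y : A) :
    0 ≤ censored A x y := by
  unfold censored
  have h1 : (0 : ℝ) ≤ (if x = y then 1 else 0) := by split_ifs <;> norm_num
  have h2 : (0 : ℝ) ≤ ∑ i : Fin n, if move A x i = y then (1 : ℝ) else 0 :=
    Finset.sum_nonneg (fun i _ => by split_ifs <;> norm_num)
  positivity

lemma censored_row {n : ℕ} (hn : 1 ≤ n) (A : Finset (Fin n → Bool)) (x : A) :
    ∑ y, censored A x y = 1 := by
  unfold censored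
  rw [Finset.sum_add_distrib, ← Finset.sum_div, ← Finset.sum_div, Finset.sum_comm]
  have hn' : (n : ℝ) ≠ 0 := by exact_mod_cast (by omega : n ≠ 0)
  simp only [Finset.sum_ite_eq, Finset.mem_univ, if_true, Finset.sum_const, Finset.card_univ,
    Fintype.card_fin, nsmul_eq_mul, mul_one]
  field_simp
  norm_num

lemma censored_col {n : ℕ} (hn : 1 ≤ n) (A : Finset (Fin n → Bool)) (y : A) :
    ∑ x, censored A x y = 1 := by
  rw [← censored_row hn A y]
  exact Finset.sum_congr rfl (fun x _ => censored_symm A x y)

lemma pow_row {n : ℕ} (hn : 1 ≤ n) (A : Finset (Fin n → Bool)) (t : ℕ) (x : A) :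
    ∑ y, (censored A ^ t) x y = 1 := by
  induction t with
  | zero => simp [Matrix.one_apply]
  | succ t ih =>
    simp only [pow_succ, Matrix.mul_apply]
    rw [Finset.sum_comm]
    simp_rw [← Finset.mul_sum, censored_row hn A, mul_one]
    exact ih

/-! ### The bottleneck inequality -/

section bottleneck

variable {n : ℕ} (A : Finset (Fin n → Bool)) (U : Finset A)

/-- Counting measure on `U` pushed forward `t` steps. -/
noncomputable def v (t : ℕ) (y : A) : ℝ := ∑ x ∈ U, (censored A ^ t) x y

lemma v_zero (y : A) : v A U 0 y = if y ∈ U then 1 else 0 := by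
  unfold v
  simp [Matrix.one_apply]

lemma v_succ (t : ℕ) (y : A) : v A U (t + 1) y = ∑ z, v A U t z * censored A z y := by
  unfold v
  simp only [pow_succ, Matrix.mul_apply]
  rw [Finset.sum_comm]
  refine Finset.sum_congr rfl (fun z _ => ?_)
  rw [Finset.sum_mul]

lemma v_nonneg (t : ℕ) (y : A) : 0 ≤ v A U t y := by
  induction t generalizing y with
  | zero => rw [v_zero]; split_ifs <;> norm_num
  | succ t ih =>
    rw [v_succ]
    exact Finset.sum_nonneg (fun z _ => mul_nonneg (ih z) (censored_nonneg A z y))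

lemma v_le_one (hn : 1 ≤ n) (t : ℕ) (y : A) : v A U t y ≤ 1 := by
  induction t generalizing y with
  | zero => rw [v_zero]; split_ifs <;> norm_num
  | succ t ih =>
    rw [v_succ, ← censored_col hn A y]
    refine Finset.sum_le_sum (fun z _ => ?_)
    calc v A U t z * censored A z y ≤ 1 * censored A z y :=
          mul_le_mul_of_nonneg_right (ih z) (censored_nonneg A z y)
      _ = censored A z y := one_mul _

/-- total flow out of `U` -/
noncomputable def flow : ℝ := ∑ z ∈ U, ∑ y ∈ Uᶜ, censored A z y

lemma mass_out (hn : 1 ≤ n) (t : ℕ) : ∑ y ∈ Uᶜ, v A U t y ≤ t * flow A U := by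
  induction t with
  | zero =>
    have : ∑ y ∈ Uᶜ, v A U 0 y = 0 := by
      refine Finset.sum_eq_zero (fun y hy => ?_)
      rw [v_zero, if_neg (Finset.mem_compl.mp hy)]
    rw [this]; simp
  | succ t ih =>
    have h1 : ∑ y ∈ Uᶜ, v A U (t + 1) y =
        ∑ z, v A U t z * ∑ y ∈ Uᶜ, censored A z y := by
      simp_rw [v_succ]
      rw [Finset.sum_comm]
      refine Finset.sum_congr rfl (fun z _ => ?_)
      rw [Finset.mul_sum]
    rw [h1, ← Finset.sum_compl_add_sum U]
    have h2 : ∑ z ∈ Uᶜ, v A U t z * ∑ y ∈ Uᶜ, censored A z y ≤ ∑ z ∈ Uᶜ, v A U t z := by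
      refine Finset.sum_le_sum (fun z _ => ?_)
      have : ∑ y ∈ Uᶜ, censored A z y ≤ 1 := by
        rw [← censored_row hn A z]
        exact Finset.sum_le_sum_of_subset_of_nonneg (Finset.subset_univ _)
          (fun y _ _ => censored_nonneg A z y)
      calc v A U t z * ∑ y ∈ Uᶜ, censored A z y ≤ v A U t z * 1 :=
            mul_le_mul_of_nonneg_left this (v_nonneg A U t z)
        _ = v A U t z := mul_one _
    have h3 : ∑ z ∈ U, v A U t z * ∑ y ∈ Uᶜ, censored A z y ≤ flow A U := by
      unfold flow
      refine Finset.sum_le_sum (fun z _ => ?_)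
      calc v A U t z * ∑ y ∈ Uᶜ, censored A z y ≤ 1 * ∑ y ∈ Uᶜ, censored A z y :=
            mul_le_mul_of_nonneg_right (v_le_one A U hn t z)
              (Finset.sum_nonneg (fun y _ => censored_nonneg A z y))
        _ = _ := one_mul _
    push_cast
    linarith

lemma mixed_mass (hn : 1 ≤ n) (t : ℕ) (hmix : Mixed A t) (hA : A.Nonempty) :
    (U.card : ℝ) * ((Uᶜ.card : ℝ) / A.card - 1 / 4) ≤ ∑ y ∈ Uᶜ, v A U t y := by
  have hcard : (0 : ℝ) < A.card := by exact_mod_cast hA.card_pos
  have key : ∀ x : A, (Uᶜ.card : ℝ) / A.card - 1 / 4 ≤ ∑ y ∈ Uᶜ, (censored A ^ t) x y := by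
    intro x
    have h := hmix x
    unfold tv at h
    set f : A → ℝ := fun y => (censored A ^ t) x y - 1 / (A.card : ℝ) with hf
    have hsum : ∑ y, f y = 0 := by
      rw [hf]
      simp only [Finset.sum_sub_distrib, pow_row hn A t x]
      simp only [Finset.sum_const, Finset.card_univ, Fintype.card_coe, nsmul_eq_mul]
      field_simp
      ring
    have hsplit : ∑ y ∈ Uᶜ, f y + ∑ y ∈ U, f y = 0 := by
      rw [Finset.sum_compl_add_sum U]; exact hsum
    have habs : ∑ y ∈ Uᶜ, |f y| + ∑ y ∈ U, |f y| ≤ 1 / 2 := by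
      rw [Finset.sum_compl_add_sum U]; linarith
    have a1 : -(∑ y ∈ Uᶜ, |f y|) ≤ ∑ y ∈ Uᶜ, f y := by
      rw [← Finset.sum_neg_distrib]
      exact Finset.sum_le_sum (fun y _ => neg_abs_le _)
    have a2 : ∑ y ∈ U, f y ≤ ∑ y ∈ U, |f y| :=
      Finset.sum_le_sum (fun y _ => le_abs_self _)
    have a3 : -(1 / 4 : ℝ) ≤ ∑ y ∈ Uᶜ, f y := by linarith
    have a4 : ∑ y ∈ Uᶜ, f y = ∑ y ∈ Uᶜ, (censored A ^ t) x y - (Uᶜ.card : ℝ) / A.card := by
      rw [hf]
      simp only [Finset.sum_sub_distrib, Finset.sum_const, nsmul_eq_mul]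
      ring
    linarith
  have h2 : ∑ y ∈ Uᶜ, v A U t y = ∑ x ∈ U, ∑ y ∈ Uᶜ, (censored A ^ t) x y := by
    unfold v
    rw [Finset.sum_comm]
  rw [h2]
  calc (U.card : ℝ) * ((Uᶜ.card : ℝ) / A.card - 1 / 4)
      = ∑ x ∈ U, ((Uᶜ.card : ℝ) / A.card - 1 / 4) := by
        rw [Finset.sum_const, nsmul_eq_mul]
    _ ≤ _ := Finset.sum_le_sum (fun x _ => key x)

end bottleneck

/-! ### The two subcubes -/

/-- The subcube of points equal to `1` on `S`. -/
def cube {n : ℕ} (S : Finset (Fin n)) : Finset (Fin n → Bool) :=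
  Finset.univ.filter (fun x => ∀ i ∈ S, x i = true)

lemma mem_cube {n : ℕ} (S : Finset (Fin n)) (x : Fin n → Bool) :
    x ∈ cube S ↔ ∀ i ∈ S, x i = true := by simp [cube]

lemma card_cube {n : ℕ} (S : Finset (Fin n)) : (cube S).card * 2 ^ S.card = 2 ^ n := by
  have h : cube S = Fintype.piFinset (fun i => if i ∈ S then {true} else (Finset.univ : Finset Bool)) := by
    ext x
    rw [mem_cube, Fintype.mem_piFinset]
    constructor
    · intro h i
      by_cases hi : i ∈ S
      · simp [hi, h i hi]
      · simp [hi]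
    · intro h i hi
      have := h i
      rw [if_pos hi] at this
      simpa using this
  rw [h, Fintype.card_piFinset]
  have h2 : ∀ i : Fin n, (if i ∈ S then ({true} : Finset Bool) else Finset.univ).card
      = if i ∈ S then 1 else 2 := by
    intro i; split_ifs <;> simp
  simp_rw [h2]
  rw [Finset.prod_ite]
  simp only [Finset.prod_const_one, Finset.prod_const, one_mul]
  rw [← pow_add]
  congr 1
  have h3 : (Finset.univ.filter (fun i => ¬ i ∈ S)).card = n - S.card := by
    have := Finset.card_compl S
    rw [Fintype.card_fin] at this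
    rw [← this]
    congr 1
    ext i; simp
  rw [h3]
  have : S.card ≤ n := by simpa using Finset.card_le_univ S
  omega

lemma cube_inter {n : ℕ} (S T : Finset (Fin n)) : cube S ∩ cube T = cube (S ∪ T) := by
  ext x
  simp only [Finset.mem_inter, mem_cube, Finset.mem_union]
  constructor
  · rintro ⟨h1, h2⟩ i (hi | hi)
    · exact h1 i hi
    · exact h2 i hi
  · intro h
    exact ⟨fun i hi => h i (Or.inl hi), fun i hi => h i (Or.inr hi)⟩

lemma cube_upper {n : ℕ} (S T : Finset (Fin n)) :
    IsUpperSet ((cube S ∪ cube T : Finset (Fin n → Bool)) : Set (Fin n → Bool)) := by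
  intro x y hxy hx
  simp only [Finset.coe_union, Set.mem_union, Finset.mem_coe, mem_cube] at hx ⊢
  have key : ∀ i, x i = true → y i = true := by
    intro i hi
    have := hxy i
    rw [hi] at this
    cases hy : y i
    · rw [hy] at this
      have h2 : (true : Bool) ≤ false := this
      revert h2; decide
    · rfl
  rcases hx with hx | hx
  · exact Or.inl (fun i hi => key i (hx i hi))
  · exact Or.inr (fun i hi => key i (hx i hi))

lemma lower_bound {n k : ℕ} (hk : 2 ≤ k) (S T : Finset (Fin n)) (hS : S.card = k)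
    (hT : T.card = k) (hST : Disjoint S T) (t : ℕ) (hmix : Mixed (cube S ∪ cube T) t) :
    (5 / 14 : ℝ) * n * (2 ^ k / k) ≤ t := by
  classical
  set A := cube S ∪ cube T with hA
  have hn : 2 * k ≤ n := by
    have h1 := Finset.card_union_of_disjoint hST
    have h2 : (S ∪ T).card ≤ n := by simpa using Finset.card_le_univ (S ∪ T)
    omega
  have hn1 : 1 ≤ n := by omega
  set U : Finset A := Finset.univ.filter (fun x => x.1 ∈ cube S) with hU
  -- cardinalities
  have cS := card_cube S
  have cT := card_cube T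
  have cST := card_cube (S ∪ T)
  rw [Finset.card_union_of_disjoint hST, hS, hT] at cST
  rw [hS] at cS
  rw [hT] at cT
  set a := (cube (S ∪ T)).card with ha
  have ha1 : 0 < a := by
    rcases Nat.eq_zero_or_pos a with h | h
    · rw [h, zero_mul] at cST
      have : 0 < 2 ^ n := by positivity
      omega
    · exact h
  have hcS : (cube S).card = a * 2 ^ k := by
    have : (cube S).card * 2 ^ k = (a * 2 ^ k) * 2 ^ k := by
      rw [cS, ← cST, pow_add]; ring
    exact Nat.eq_of_mul_eq_mul_right (by positivity) this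
  have hcT : (cube T).card = a * 2 ^ k := by
    have : (cube T).card * 2 ^ k = (a * 2 ^ k) * 2 ^ k := by
      rw [cT, ← cST, pow_add]; ring
    exact Nat.eq_of_mul_eq_mul_right (by positivity) this
  have hUcard : U.card = a * 2 ^ k := by
    have : (Finset.univ.filter (fun x : A => x.1 ∈ cube S)).map (Function.Embedding.subtype _)
        = cube S := by
      ext x
      simp only [Finset.mem_map, Finset.mem_filter, Finset.mem_univ, true_and,
        Function.Embedding.coe_subtype, Subtype.exists, exists_and_left, exists_prop,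
        exists_eq_right_right, hA, Finset.mem_union]
      tauto
    rw [hU, ← Finset.card_map (Function.Embedding.subtype _), this, hcS]
  have hUccard : Uᶜ.card = a * (2 ^ k - 1) := by
    have h1 : Uᶜ = Finset.univ.filter (fun x : A => x.1 ∉ cube S) := by
      ext x; simp [hU]
    have h2 : (Finset.univ.filter (fun x : A => x.1 ∉ cube S)).map (Function.Embedding.subtype _)
        = cube T \ cube (S ∪ T) := by
      ext x
      rw [← cube_inter]
      simp only [Finset.mem_map, Finset.mem_filter, Finset.mem_univ, true_and,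
        Function.Embedding.coe_subtype, Subtype.exists, exists_and_left, exists_prop,
        exists_eq_right_right, hA, Finset.mem_union, Finset.mem_sdiff, Finset.mem_inter]
      tauto
    have h3 : cube (S ∪ T) ⊆ cube T := by
      rw [← cube_inter]; exact Finset.inter_subset_right
    rw [h1, ← Finset.card_map (Function.Embedding.subtype _), h2, Finset.card_sdiff_of_subset h3, hcT,
      ← ha, Nat.mul_sub, mul_one]
  have hAcard : A.card = a * (2 * 2 ^ k - 1) := by
    have h1 : U.card + Uᶜ.card = A.card := by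
      rw [Finset.card_add_card_compl, Fintype.card_coe]
    rw [← h1, hUcard, hUccard]
    have : 1 ≤ 2 ^ k := Nat.one_le_two_pow
    rw [← mul_add]
    congr 1
    omega
  have hAne : A.Nonempty := by
    rw [← Finset.card_pos, hAcard]
    have : 1 ≤ 2 ^ k := Nat.one_le_two_pow
    exact Nat.mul_pos ha1 (by omega)
  -- the flow
  have hflow : flow A U ≤ a * (k / (2 * n)) := by
    unfold flow
    have hz : ∀ z ∈ U, ∑ y ∈ Uᶜ, censored A z y ≤
        if z.1 ∈ cube (S ∪ T) then (k : ℝ) / (2 * n) else 0 := by
      intro z hz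
      have hzS : z.1 ∈ cube S := by simpa [hU] using hz
      have e1 : ∑ y ∈ Uᶜ, censored A z y =
          (∑ i : Fin n, if move A z i ∈ Uᶜ then (1 : ℝ) else 0) / (2 * n) := by
        unfold censored
        rw [Finset.sum_add_distrib, ← Finset.sum_div, ← Finset.sum_div, Finset.sum_comm]
        have q1 : ∑ y ∈ Uᶜ, (if z = y then (1 : ℝ) else 0) = 0 := by
          refine Finset.sum_eq_zero (fun y hy => ?_)
          rw [if_neg]
          rintro rfl
          exact (Finset.mem_compl.mp hy) hz
        rw [q1]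
        simp only [zero_div, zero_add]
        congr 1
        refine Finset.sum_congr rfl (fun i _ => ?_)
        rw [Finset.sum_ite_eq]
      have e2 : ∀ i : Fin n, (if move A z i ∈ Uᶜ then (1 : ℝ) else 0) ≤
          if z.1 ∈ cube (S ∪ T) ∧ i ∈ S then 1 else 0 := by
        intro i
        by_cases h : move A z i ∈ Uᶜ
        · have h1 : (move A z i).1 ∉ cube S := by simpa [hU] using h
          have h2 : z.1 ∈ cube (S ∪ T) ∧ i ∈ S := by
            unfold move at h1
            split_ifs at h1 with h3
            · simp only at h1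
              have hi : i ∈ S := by
                by_contra hi
                apply h1
                rw [mem_cube] at hzS ⊢
                intro j hj
                have hji : j ≠ i := fun e => hi (e ▸ hj)
                simp only [flip]
                rw [Function.update_of_ne hji]
                exact hzS j hj
              have h4 : flip z.1 i ∈ cube T := by
                rcases Finset.mem_union.mp h3 with h3 | h3
                · exact absurd h3 h1
                · exact h3
              have h5 : z.1 ∈ cube T := by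
                rw [mem_cube] at h4 ⊢
                intro j hj
                have hji : j ≠ i := by
                  rintro rfl
                  exact (Finset.disjoint_left.mp hST) hi hj
                have := h4 j hj
                simp only [flip] at this
                rwa [Function.update_of_ne hji] at this
              exact ⟨by rw [← cube_inter]; exact Finset.mem_inter.mpr ⟨hzS, h5⟩, hi⟩
            · exact absurd hzS h1
          rw [if_pos h, if_pos h2]
        · rw [if_neg h]
          split_ifs <;> norm_num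
      have e3 : (∑ i : Fin n, if move A z i ∈ Uᶜ then (1 : ℝ) else 0) ≤
          if z.1 ∈ cube (S ∪ T) then (k : ℝ) else 0 := by
        refine (Finset.sum_le_sum (fun i _ => e2 i)).trans ?_
        by_cases h : z.1 ∈ cube (S ∪ T)
        · simp only [h, true_and, if_true]
          rw [← hS]
          simp
        · simp [h]
      rw [e1]
      have hn0 : (0 : ℝ) < 2 * n := by
        have : (0 : ℝ) < n := by exact_mod_cast hn1
        linarith
      by_cases h : z.1 ∈ cube (S ∪ T)
      · rw [if_pos h] at e3 ⊢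
        exact div_le_div_of_nonneg_right e3 hn0.le
      · rw [if_neg h] at e3 ⊢
        exact div_nonpos_of_nonpos_of_nonneg e3 hn0.le
    refine (Finset.sum_le_sum hz).trans ?_
    rw [← Finset.sum_filter, Finset.sum_const, nsmul_eq_mul]
    have hle : (U.filter (fun z => z.1 ∈ cube (S ∪ T))).card ≤ a := by
      rw [ha, ← Finset.card_map (Function.Embedding.subtype _)]
      refine Finset.card_le_card ?_
      intro x hx
      obtain ⟨z, hz, hzx⟩ := Finset.mem_map.mp hx
      rw [← hzx]
      exact (Finset.mem_filter.mp hz).2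
    have hle' : ((U.filter (fun z => z.1 ∈ cube (S ∪ T))).card : ℝ) ≤ a := by exact_mod_cast hle
    exact mul_le_mul_of_nonneg_right hle' (by positivity)
  -- combine
  have h1 := mixed_mass A U hn1 t hmix hAne
  have h2 := mass_out A U hn1 t
  have h3 : (U.card : ℝ) * ((Uᶜ.card : ℝ) / A.card - 1 / 4) ≤ t * (a * (k / (2 * n))) :=
    h1.trans (h2.trans (mul_le_mul_of_nonneg_left hflow (Nat.cast_nonneg t)))
  have hpow : (1 : ℝ) ≤ 2 ^ k := one_le_pow₀ (by norm_num)
  have hpow4 : (4 : ℝ) ≤ 2 ^ k := by
    calc (4 : ℝ) = 2 ^ 2 := by norm_num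
      _ ≤ 2 ^ k := pow_le_pow_right₀ (by norm_num) hk
  have r1 : (U.card : ℝ) = a * 2 ^ k := by rw [hUcard]; push_cast; ring
  have r2 : (Uᶜ.card : ℝ) = a * (2 ^ k - 1) := by
    rw [hUccard]; push_cast [Nat.one_le_two_pow]; ring
  have r3 : (A.card : ℝ) = a * (2 * 2 ^ k - 1) := by
    rw [hAcard]
    have : 1 ≤ 2 * 2 ^ k := by
      have : 1 ≤ 2 ^ k := Nat.one_le_two_pow
      omega
    push_cast [this]; ring
  have ha0 : (0 : ℝ) < a := by exact_mod_cast ha1
  have hn0 : (0 : ℝ) < n := by exact_mod_cast hn1
  have hk0 : (0 : ℝ) < k := by exact_mod_cast (by omega : 0 < k)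
  have hratio : (5 / 28 : ℝ) ≤ (Uᶜ.card : ℝ) / A.card - 1 / 4 := by
    rw [r2, r3, mul_div_mul_left _ _ ha0.ne']
    have hden : (0 : ℝ) < 2 * 2 ^ k - 1 := by linarith
    have : (3 / 7 : ℝ) ≤ (2 ^ k - 1) / (2 * 2 ^ k - 1) := by
      rw [le_div_iff₀ hden]; linarith
    linarith
  have h4 : (a * 2 ^ k : ℝ) * (5 / 28) ≤ t * (a * (k / (2 * n))) := by
    rw [← r1]
    exact (mul_le_mul_of_nonneg_left hratio (Nat.cast_nonneg _)).trans h3
  have h5 : (2 ^ k : ℝ) * (5 / 28) ≤ t * (k / (2 * n)) := by
    have : (a : ℝ) * ((2 ^ k : ℝ) * (5 / 28)) ≤ a * (t * (k / (2 * n))) := by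
      calc (a : ℝ) * ((2 ^ k : ℝ) * (5 / 28)) = (a * 2 ^ k : ℝ) * (5 / 28) := by ring
        _ ≤ t * (a * (k / (2 * n))) := h4
        _ = a * (t * (k / (2 * n))) := by ring
    exact le_of_mul_le_mul_left this ha0
  have h6 : (t : ℝ) = (t * (k / (2 * n))) * (2 * n / k) := by field_simp
  rw [h6]
  calc (5 / 14 : ℝ) * n * (2 ^ k / k) = ((2 ^ k : ℝ) * (5 / 28)) * (2 * n / k) := by
        field_simp; norm_num
    _ ≤ _ := mul_le_mul_of_nonneg_right h5 (by positivity)

/-- **Main theorem.** For every constant `C`, every `δ > 0` and every `N` there are `n ≥ N` and a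
nonempty monotone set `A ⊆ {0,1}^n` of density at least `(log n)^(-(1+δ))` whose censored walk has
mixing time larger than `C n log n`: every time `t` at which the chain is mixed satisfies
`t > C n log n`. -/
theorem result : ∀ C δ : ℝ, 0 < δ → ∀ N : ℕ, ∃ n : ℕ, N ≤ n ∧ 2 ≤ n ∧
    ∃ A : Finset (Fin n → Bool), A.Nonempty ∧ IsUpperSet (A : Set (Fin n → Bool)) ∧
      (Real.log n) ^ (-(1 + δ)) ≤ (A.card : ℝ) / 2 ^ n ∧
      ∀ t : ℕ, Mixed A t → C * n * Real.log n < t := by
  intro C δ hδ N
  set s : ℝ := 1 / (1 + δ) with hs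
  have hs0 : 0 < s := by positivity
  have hs1 : s < 1 := by
    rw [hs, div_lt_one (by linarith)]; linarith
  set c : ℝ := s * Real.log 2 with hc
  have hlog2 : 0 < Real.log 2 := Real.log_pos (by norm_num)
  have hc0 : 0 < c := by positivity
  -- choice of `k`
  have hr : Filter.Tendsto (fun k : ℕ => (k : ℝ) * ((2 : ℝ) ^ (s - 1)) ^ k) Filter.atTop
      (nhds 0) := by
    refine tendsto_self_mul_const_pow_of_lt_one (by positivity) ?_
    exact Real.rpow_lt_one_of_one_lt_of_neg (by norm_num) (by linarith)
  have ev1 : ∀ᶠ k : ℕ in Filter.atTop,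
      (k : ℝ) * ((2 : ℝ) ^ (s - 1)) ^ k < 1 / (6 * (|C| + 1)) :=
    hr.eventually_lt_const (by positivity)
  have ev2 : ∀ᶠ k : ℕ in Filter.atTop, 4 / c ^ 2 ≤ (k : ℝ) :=
    tendsto_natCast_atTop_atTop.eventually_ge_atTop _
  have ev3 : ∀ᶠ k : ℕ in Filter.atTop, (N : ℝ) / c ≤ (k : ℝ) :=
    tendsto_natCast_atTop_atTop.eventually_ge_atTop _
  obtain ⟨k, hk2, hk1, hk3, hk4⟩ :=
    ((Filter.eventually_ge_atTop 2).and (ev1.and (ev2.and ev3))).exists
  set L : ℝ := (2 : ℝ) ^ (s * k) with hL
  have hk0 : (0 : ℝ) < k := by exact_mod_cast (by omega : 0 < k)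
  have hL1 : 1 ≤ L := Real.one_le_rpow (by norm_num) (by positivity)
  have hLexp : L = Real.exp (c * k) := by
    rw [hL, Real.rpow_def_of_pos (by norm_num)]
    congr 1
    rw [hc]; ring
  have hLck : c * k ≤ L := by
    rw [hLexp]
    have := Real.add_one_le_exp (c * k)
    linarith
  set n : ℕ := ⌈Real.exp L⌉₊ with hn
  have hnge : Real.exp L ≤ n := Nat.le_ceil _
  have hnle : (n : ℝ) < Real.exp L + 1 := Nat.ceil_lt_add_one (Real.exp_pos L).le
  have hexp1 : 1 ≤ Real.exp L := Real.one_le_exp (by linarith)
  have hexpq : c * k ≤ Real.exp L := by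
    have := Real.add_one_le_exp L
    linarith
  have h2k : 2 * (k : ℝ) ≤ n := by
    have h1 : 1 + c * k + (c * k) ^ 2 / 2 ≤ Real.exp (c * k) :=
      Real.quadratic_le_exp_of_nonneg (by positivity)
    have h2 : Real.exp (c * k) ≤ Real.exp L := Real.exp_le_exp.mpr hLck
    have h3 : 2 * (k : ℝ) ≤ (c * k) ^ 2 / 2 := by
      have h4 : 4 ≤ k * c ^ 2 := by
        rwa [div_le_iff₀ (by positivity)] at hk3
      nlinarith
    have h5 : 0 ≤ c * k := by positivity
    linarith
  have h2k' : 2 * k ≤ n := by exact_mod_cast h2k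
  have hN : N ≤ n := by
    have h1 : (N : ℝ) ≤ c * k := by
      rw [div_le_iff₀ hc0] at hk4
      linarith
    exact_mod_cast (h1.trans (hexpq.trans hnge))
  have hn2 : 2 ≤ n := by omega
  have hn0 : (0 : ℝ) < n := by exact_mod_cast (by omega : 0 < n)
  have hlogge : L ≤ Real.log n := by
    rw [Real.le_log_iff_exp_le hn0]; exact hnge
  have hlogle : Real.log n ≤ 2 * L := by
    have h1 : (n : ℝ) ≤ 2 * Real.exp L := by linarith
    have h2 : Real.log n ≤ Real.log (2 * Real.exp L) := Real.log_le_log hn0 h1
    rw [Real.log_mul (by norm_num) (Real.exp_pos L).ne', Real.log_exp] at h2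
    have h3 : Real.log 2 ≤ 1 := by
      have := Real.log_two_lt_d9
      linarith
    linarith
  -- the two disjoint sets
  obtain ⟨S, -, hS⟩ : ∃ S : Finset (Fin n), S ⊆ Finset.univ ∧ S.card = k :=
    Finset.exists_subset_card_eq (by rw [Finset.card_univ, Fintype.card_fin]; omega)
  obtain ⟨T, hTS, hT⟩ : ∃ T : Finset (Fin n), T ⊆ Sᶜ ∧ T.card = k :=
    Finset.exists_subset_card_eq (by rw [Finset.card_compl, Fintype.card_fin, hS]; omega)
  have hST : Disjoint S T := by
    rw [Finset.disjoint_left]
    intro i hi hi'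
    exact (Finset.mem_compl.mp (hTS hi')) hi
  refine ⟨n, hN, hn2, cube S ∪ cube T, ?_, cube_upper S T, ?_, ?_⟩
  · exact ⟨fun _ => true, by simp [mem_cube]⟩
  · have h1 : ((cube S).card : ℝ) * 2 ^ k = 2 ^ n := by
      have := card_cube S
      rw [hS] at this
      exact_mod_cast this
    have h2 : ((cube S).card : ℝ) ≤ (cube S ∪ cube T).card := by
      exact_mod_cast Finset.card_le_card Finset.subset_union_left
    have h3 : (Real.log n) ^ (-(1 + δ)) ≤ L ^ (-(1 + δ)) :=
      Real.rpow_le_rpow_of_nonpos (by linarith) hlogge (by linarith)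
    have h4 : L ^ (-(1 + δ)) = ((2 : ℝ) ^ k)⁻¹ := by
      rw [hL, ← Real.rpow_mul (by norm_num)]
      have : s * k * (-(1 + δ)) = -(k : ℝ) := by
        rw [hs]; field_simp
      rw [this, Real.rpow_neg (by norm_num), Real.rpow_natCast]
    have h5 : ((2 : ℝ) ^ k)⁻¹ = ((cube S).card : ℝ) / 2 ^ n := by
      rw [← h1]
      have : ((cube S).card : ℝ) ≠ 0 := by
        intro h0
        rw [h0, zero_mul] at h1
        have : (0 : ℝ) < 2 ^ n := by positivity
        linarith
      field_simp
    rw [h4, h5] at h3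
    exact h3.trans (div_le_div_of_nonneg_right h2 (by positivity))
  · intro t ht
    have h1 := lower_bound hk2 S T hS hT hST t ht
    refine lt_of_lt_of_le ?_ h1
    have h2 : C * n * Real.log n ≤ |C| * n * (2 * L) := by
      have hl0 : 0 ≤ Real.log n := by linarith
      calc C * n * Real.log n ≤ |C| * n * Real.log n := by
            have := le_abs_self C
            have h3 : C * n ≤ |C| * n := mul_le_mul_of_nonneg_right this hn0.le
            exact mul_le_mul_of_nonneg_right h3 hl0
        _ ≤ |C| * n * (2 * L) := mul_le_mul_of_nonneg_left hlogle (by positivity)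
    refine lt_of_le_of_lt h2 ?_
    have h3 : (k : ℝ) * L * (6 * (|C| + 1)) < 2 ^ k := by
      have h4 : ((2 : ℝ) ^ (s - 1)) ^ k * 2 ^ k = L := by
        rw [← Real.rpow_natCast, ← Real.rpow_natCast (2 : ℝ) k, ← Real.rpow_mul (by norm_num),
          ← Real.rpow_add (by norm_num), hL]
        congr 1; ring
      have h5 : (k : ℝ) * ((2 : ℝ) ^ (s - 1)) ^ k * (6 * (|C| + 1)) < 1 := by
        rwa [lt_div_iff₀ (by positivity)] at hk1
      have h6 : (0 : ℝ) < 2 ^ k := by positivity
      calc (k : ℝ) * L * (6 * (|C| + 1))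
          = ((k : ℝ) * ((2 : ℝ) ^ (s - 1)) ^ k * (6 * (|C| + 1))) * 2 ^ k := by
            rw [← h4]; ring
        _ < 1 * 2 ^ k := mul_lt_mul_of_pos_right h5 h6
        _ = 2 ^ k := one_mul _
    have h7 : 6 * (|C| + 1) * L < 2 ^ k / k := by
      rw [lt_div_iff₀ hk0]; linarith
    have hC0 : 0 ≤ |C| := abs_nonneg C
    have h8 : |C| * (2 * L) < 5 / 14 * (2 ^ k / k) := by nlinarith
    calc |C| * n * (2 * L) = n * (|C| * (2 * L)) := by ring
      _ < n * (5 / 14 * (2 ^ k / k)) := mul_lt_mul_of_pos_left h8 hn0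
      _ = 5 / 14 * n * (2 ^ k / k) := by ring

end Pool.Agent.Results.MP_52661b_pr.TwoSubcubes
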